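import Mathlib

set_option autoImplicit false
open Finset Filter Topology
open scoped Classical

namespace Pool.Agent.H.MP_d7aa4b_an

variable {𝕜 X : Type*} [RCLike 𝕜] [NormedAddCommGroup X] [NormedSpace 𝕜 X]

structure Bas (e : ℕ → X) (f : ℕ → X →L[𝕜] 𝕜) (c : ℝ) : Prop where
  bi : ∀ i j, f i (e j) = if i = j then 1 else 0
  c1 : 1 ≤ c
  he : ∀ n, ‖e n‖ ≤ c
  hf : ∀ n x, ‖f n x‖ ≤ c * ‖x‖
  den : Dense (Submodule.span 𝕜 (Set.range e) : Set X)

variable (e : ℕ → X) (f : ℕ → X →L[𝕜] 𝕜)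

noncomputable def W (u : X) (A : Finset ℕ) (θ : ℕ → ℝ) : X := ∑ a ∈ A, (θ a : 𝕜) • f a u • e a

noncomputable def FF (u : X) : List ℕ → X
  | [] => 0
  | a :: L => ((L.length + 1 : ℕ) : 𝕜) • f a u • e a + FF u L

noncomputable def GG (u : X) (L : List ℕ) : X := (L.map fun a => f a u • e a).sum

def GS (u : X) (A : Finset ℕ) : Prop := ∀ a ∈ A, ∀ n ∉ A, ‖f n u‖ ≤ ‖f a u‖

def Gr (u : X) (L : List ℕ) : Prop :=
  L.Nodup ∧ L.Pairwise (fun a b => ‖f b u‖ ≤ ‖f a u‖) ∧ GS f u L.toFinset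

variable {e f} {c : ℝ}

theorem FF_append (u : X) (L M : List ℕ) :
    FF e f u (L ++ M) = FF e f u L + (M.length : 𝕜) • GG e f u L + FF e f u M := by
  induction L with
  | nil => simp [FF, GG]
  | cons a L ih =>
    simp only [List.cons_append, FF, ih, GG, List.map_cons, List.sum_cons, List.length_append]
    push_cast
    module

theorem FF_rev (u : X) (L : List ℕ) :
    FF e f u L + FF e f u L.reverse = ((L.length + 1 : ℕ) : 𝕜) • GG e f u L := by
  induction L with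
  | nil => simp [FF, GG]
  | cons a L ih =>
    have : GG e f u L.reverse = GG e f u L := by simp [GG, List.map_reverse]
    rw [List.reverse_cons, FF_append, this, ← sub_eq_iff_eq_add'.2 ih.symm]
    simp only [FF, GG, List.map_cons, List.sum_cons, List.length_cons, List.length_nil]
    push_cast
    module

theorem GG_eq (u : X) {L : List ℕ} (h : L.Nodup) : GG e f u L = W e f u L.toFinset 1 := by
  simp [GG, W, List.sum_toFinset _ h]

theorem FF_eq (u : X) {L : List ℕ} (h : L.Nodup) : ∃ ρ : ℕ → ℝ,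
    (∀ a, 0 ≤ ρ a ∧ ρ a ≤ L.length) ∧ FF e f u L = W e f u L.toFinset ρ := by
  induction L with
  | nil => exact ⟨0, by simp, by simp [FF, W]⟩
  | cons a L ih =>
    obtain ⟨h1, h2⟩ := List.nodup_cons.1 h
    obtain ⟨ρ, h3, h4⟩ := ih h2
    refine ⟨Function.update ρ a (L.length + 1), fun b => ?_, ?_⟩
    · by_cases hb : b = a
      · simp [hb]; positivity
      · simp only [Function.update_of_ne hb, List.length_cons, Nat.cast_succ]
        exact ⟨(h3 b).1, by linarith [(h3 b).2]⟩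
    · rw [FF, h4, W, W, List.toFinset_cons, sum_insert (by simpa using h1), Function.update_self]
      congr 1
      · push_cast; rfl
      · exact sum_congr rfl fun b hb => by
          rw [Function.update_of_ne (by rintro rfl; exact h1 (by simpa using hb))]

theorem sorted (g : ℕ → ℝ) (A : Finset ℕ) : ∃ L : List ℕ, L.Nodup ∧ L.toFinset = A ∧
    L.length = #A ∧ L.Pairwise fun a b => g b ≤ g a := by
  have : Std.Total fun a b => g b ≤ g a := ⟨fun a b => le_total _ _⟩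
  have : IsTrans ℕ fun a b => g b ≤ g a := ⟨fun a b c h h' => h'.trans h⟩
  have p := List.perm_insertionSort (fun a b => g b ≤ g a) A.toList
  exact ⟨_, p.nodup_iff.2 A.nodup_toList, by rw [List.toFinset_eq_of_perm _ _ p]; simp,
    by rw [p.length_eq]; simp, List.pairwise_insertionSort _ _⟩

theorem Bas.f_W (h : Bas e f c) (u : X) (A : Finset ℕ) (θ : ℕ → ℝ) (n : ℕ) :
    f n (W e f u A θ) = if n ∈ A then θ n * f n u else 0 := by
  simp [W, h.bi]

theorem Bas.one (h : Bas e f c) (u : X) (a : ℕ) : ‖f a u • e a‖ ≤ c ^ 2 * ‖u‖ := by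
  rw [norm_smul]
  have := mul_le_mul (h.hf a u) (h.he a) (norm_nonneg _) ((norm_nonneg _).trans (h.hf a u))
  linarith

theorem Bas.W_le (h : Bas e f c) (u : X) (A : Finset ℕ) :
    ‖W e f u A 1‖ ≤ #A * (c ^ 2 * ‖u‖) := by
  refine (norm_sum_le _ _).trans ((sum_le_card_nsmul _ _ _ fun a _ => ?_).trans_eq (nsmul_eq_mul _ _))
  simpa using h.one u a

theorem conv (v : ℕ → X) (θ : ℕ → ℝ) (M : ℝ) (A : Finset ℕ) (h : ∀ a ∈ A, 0 ≤ θ a ∧ θ a ≤ 1) :
    ∀ w : X, (∀ B ⊆ A, ‖w + ∑ a ∈ B, v a‖ ≤ M) → ‖w + ∑ a ∈ A, (θ a : 𝕜) • v a‖ ≤ M := by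
  induction A using Finset.induction_on with
  | empty => exact fun w hw => by simpa using hw ∅ subset_rfl
  | insert a A ha ih =>
    intro w hw
    have h' := fun b hb => h b (mem_insert_of_mem hb)
    have h1 := ih h' w fun B hB => hw B (hB.trans (subset_insert _ _))
    have h2 := ih h' (w + v a) fun B hB => by
      have := hw (insert a B) (insert_subset_insert _ hB)
      rwa [sum_insert fun hb => ha (hB hb), ← add_assoc] at this
    obtain ⟨t0, t1⟩ := h a (mem_insert_self _ _)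
    have : w + ∑ b ∈ insert a A, (θ b : 𝕜) • v b =
        ((1 - θ a : ℝ) : 𝕜) • (w + ∑ a ∈ A, (θ a : 𝕜) • v a) +
        (θ a : 𝕜) • (w + v a + ∑ a ∈ A, (θ a : 𝕜) • v a) := by
      rw [sum_insert ha]; push_cast; module
    rw [this]
    refine (norm_add_le _ _).trans ?_
    rw [norm_smul, norm_smul, RCLike.norm_ofReal, RCLike.norm_ofReal, abs_of_nonneg t0,
      abs_of_nonneg (by linarith)]
    nlinarith

theorem W_congr {u v : X} {A : Finset ℕ} {θ η : ℕ → ℝ}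
    (h : ∀ a ∈ A, (θ a : 𝕜) * f a u = η a * f a v) : W e f u A θ = W e f v A η :=
  sum_congr rfl fun a ha => by rw [smul_smul, smul_smul, h a ha]

theorem W_mul (u : X) (A : Finset ℕ) (r : ℝ) (θ : ℕ → ℝ) :
    W e f u A (fun a => r * θ a) = (r : 𝕜) • W e f u A θ := by
  simp [W, smul_sum, mul_smul]

theorem W_split (u : X) (A : Finset ℕ) (θ : ℕ → ℝ) (p : ℕ → Prop) [DecidablePred p]
    [∀ a, Decidable (¬ p a)] :
    W e f u A θ = W e f u (A.filter p) θ + W e f u (A.filter fun a => ¬ p a) θ :=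
  (sum_filter_add_sum_filter_not _ _ _).symm

theorem GS.mid {u : X} {A B : Finset ℕ} (hA : GS f u A) (hB : GS f u B) (h : A ⊆ B) (j : ℕ)
    (hj : #A + j ≤ #B) : ∃ D, A ⊆ D ∧ D ⊆ B ∧ #D = #A + j ∧ GS f u D := by
  induction j with
  | zero => exact ⟨A, subset_rfl, h, rfl, hA⟩
  | succ j ih =>
    obtain ⟨D, h1, h2, h3, h4⟩ := ih (by omega)
    obtain ⟨a, ha, hm⟩ := exists_max_image (B \ D) (fun a => ‖f a u‖)
      (card_pos.1 (by rw [card_sdiff_of_subset h2]; omega))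
    obtain ⟨a1, a2⟩ := mem_sdiff.1 ha
    refine ⟨insert a D, h1.trans (subset_insert _ _), insert_subset a1 h2,
      by rw [card_insert_of_notMem a2]; omega, fun b hb n hn => ?_⟩
    have hn' : n ∉ D := fun h => hn (mem_insert_of_mem h)
    rcases mem_insert.1 hb with rfl | hb
    · by_cases h5 : n ∈ B
      · exact hm n (mem_sdiff.2 ⟨h5, hn'⟩)
      · exact hB b a1 n h5
    · exact h4 b hb n hn'

theorem GS.filter {u : X} {A : Finset ℕ} (hA : GS f u A) (s : ℝ) :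
    GS f u (A.filter fun a => s ≤ ‖f a u‖) := by
  intro a ha n hn
  obtain ⟨h1, h2⟩ := mem_filter.1 ha
  by_cases h : n ∈ A
  · exact (not_le.1 fun h3 => hn (mem_filter.2 ⟨h, h3⟩)).le.trans h2
  · exact hA a h1 n h

theorem Bas.fin (h : Bas e f c) (u : X) {s : ℝ} (hs : 0 < s) : {n | s ≤ ‖f n u‖}.Finite := by
  have hc : 0 < c := zero_lt_one.trans_le h.c1
  obtain ⟨v, h1, h2⟩ := h.den.exists_dist_lt u (div_pos hs hc)
  obtain ⟨l, rfl⟩ := (Finsupp.mem_span_range_iff_exists_finsupp).1 h1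
  refine l.support.finite_toSet.subset fun n hn => ?_
  by_contra h3
  have h4 : f n (l.sum fun i a => a • e i) = 0 := by
    simp only [Finsupp.sum, map_sum, map_smul, h.bi]
    exact sum_eq_zero fun i hi => by rw [if_neg (by rintro rfl; exact h3 hi), smul_zero]
  have h5 := h.hf n (u - l.sum fun i a => a • e i)
  rw [map_sub, h4, sub_zero, ← dist_eq_norm] at h5
  rw [lt_div_iff₀ hc] at h2
  have : s ≤ ‖f n u‖ := hn
  linarith

def Ces (e : ℕ → X) (f : ℕ → X →L[𝕜] 𝕜) (K : ℝ) : Prop :=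
  ∀ u L, Gr f u L → ‖FF e f u L‖ ≤ K * L.length * ‖u‖

variable {K : ℝ}

theorem Ces.trap (H : Ces e f K) {u : X} {A B : Finset ℕ} (hA : GS f u A) (hB : GS f u B)
    (h : A ⊆ B) {r : ℝ} (hK : 0 ≤ K) (h0 : #A < #B) (hr : (#A + #B : ℝ) ≤ r * (#B - #A)) :
    ∃ w : ℕ → ℝ, (∀ a, 0 ≤ w a ∧ w a ≤ 1) ∧
      ‖W e f u A 1 + W e f u (B \ A) w‖ ≤ K * r * ‖u‖ := by
  obtain ⟨L, l1, l2, l3, l4⟩ := sorted (fun a => ‖f a u‖) A
  obtain ⟨M, m1, m2, m3, m4⟩ := sorted (fun a => ‖f a u‖) (B \ A)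
  rw [card_sdiff_of_subset h] at m3
  have a1 := H u L ⟨l1, l4, l2 ▸ hA⟩
  have mem : ∀ a ∈ L, ∀ b ∈ M, a ∈ A ∧ b ∉ A := fun a ha b hb =>
    ⟨l2 ▸ List.mem_toFinset.2 ha, (mem_sdiff.1 (m2 ▸ List.mem_toFinset.2 hb)).2⟩
  have a2 := H u (L ++ M) ⟨List.nodup_append.2 ⟨l1, m1, fun a ha b hb e =>
    (mem a ha b hb).2 (e ▸ (mem a ha b hb).1)⟩, List.pairwise_append.2 ⟨l4, m4, fun a ha b hb =>
      hA a (mem a ha b hb).1 b (mem a ha b hb).2⟩, by
    rwa [List.toFinset_append, l2, m2, union_sdiff_of_subset h]⟩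
  obtain ⟨ρ, r1, r2⟩ := FF_eq (e := e) (f := f) u m1
  have hm : (M.length : ℝ) = #B - #A := by rw [m3, Nat.cast_sub h0.le]
  have hp : (0 : ℝ) < M.length := by rw [hm, sub_pos]; exact_mod_cast h0
  refine ⟨fun a => (M.length : ℝ)⁻¹ * ρ a, fun a => ⟨mul_nonneg (by positivity) (r1 a).1,
    by rw [inv_mul_le_iff₀ hp]; simpa using (r1 a).2⟩, ?_⟩
  have e1 : W e f u A 1 + W e f u (B \ A) (fun a => (M.length : ℝ)⁻¹ * ρ a) =
      (((M.length : ℝ)⁻¹ : ℝ) : 𝕜) • (FF e f u (L ++ M) - FF e f u L) := by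
    rw [W_mul, FF_append, GG_eq u l1, l2, r2, m2, add_assoc, add_sub_cancel_left, smul_add,
      smul_smul]
    push_cast
    rw [inv_mul_cancel₀ (by exact_mod_cast hp.ne'), one_smul]
  rw [e1, norm_smul, RCLike.norm_ofReal, abs_of_pos (by positivity), inv_mul_le_iff₀ hp]
  refine (norm_sub_le _ _).trans ((add_le_add a2 a1).trans ?_)
  rw [List.length_append, Nat.cast_add, hm, l3]
  nlinarith [mul_le_mul_of_nonneg_left hr (mul_nonneg hK (norm_nonneg u))]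

theorem Ces.flat (H : Ces e f K) (hK : 0 ≤ K) {u : X} {A : Finset ℕ}
    (h : ∀ a ∈ A, ∀ n, ‖f n u‖ ≤ ‖f a u‖) : ‖W e f u A 1‖ ≤ 2 * K * ‖u‖ := by
  have g : ∀ L : List ℕ, L.Nodup → L.toFinset = A → Gr f u L := fun L h1 h2 =>
    ⟨h1, List.pairwise_of_forall_mem_list fun a ha b _ => h a (h2 ▸ List.mem_toFinset.2 ha) b,
      fun a ha n _ => h a (h2 ▸ ha) n⟩
  have a1 := H u _ (g A.toList A.nodup_toList (by simp))
  have a2 := H u _ (g A.toList.reverse (by simpa using A.nodup_toList) (by simp))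
  have a3 := (norm_add_le _ _).trans (add_le_add a1 a2)
  rw [FF_rev, GG_eq u A.nodup_toList, toList_toFinset, norm_smul, RCLike.norm_natCast,
    List.length_reverse] at a3
  push_cast at a3
  refine le_of_mul_le_mul_left (a3.trans ?_) (by positivity : (0 : ℝ) < A.toList.length + 1)
  nlinarith [mul_nonneg hK (norm_nonneg u)]

theorem Ces.near (H : Ces e f K) (h : Bas e f c) (hK : 1 ≤ K) {u : X} {A : Finset ℕ} {s : ℝ}
    (hs : 0 < s) (h1 : ∀ n, ‖f n u‖ ≤ s) (h2 : ∀ a ∈ A, (1 - 1 / (8 * K ^ 2)) * s ≤ ‖f a u‖)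
    {θ : ℕ → ℝ} (hθ : ∀ a ∈ A, 0 ≤ θ a ∧ θ a ≤ 1) : ‖W e f u A θ‖ ≤ 8 * K ^ 2 * ‖u‖ := by
  obtain ⟨d, hd⟩ : ∃ d, d = 1 / (8 * K ^ 2) := ⟨_, rfl⟩
  have d0 : 0 < d := by rw [hd]; positivity
  have d1 : d * (8 * K ^ 2) = 1 := by rw [hd]; field_simp
  have d2 : d < 1 := by nlinarith
  rw [← hd] at h2
  have p : ∀ a ∈ A, 0 < ‖f a u‖ := fun a ha => lt_of_lt_of_le (by nlinarith) (h2 a ha)
  obtain ⟨z, hz⟩ : ∃ z, z = W e f u A fun a => s / ‖f a u‖ := ⟨_, rfl⟩
  have z1 : ∀ a ∈ A, f a z = (s / ‖f a u‖ : ℝ) * f a u := fun a ha => by rw [hz, h.f_W, if_pos ha]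
  have z2 : ∀ a ∈ A, ‖((s / ‖f a u‖ : ℝ) : 𝕜) * f a u‖ = s := fun a ha => by
    rw [norm_mul, RCLike.norm_ofReal, abs_of_pos (div_pos hs (p a ha)),
      div_mul_cancel₀ _ (p a ha).ne']
  have z3 : ∀ η : ℕ → ℝ, (∀ a ∈ A, 0 ≤ η a ∧ η a ≤ 1) → ‖W e f z A η‖ ≤ 2 * K * ‖z‖ := by
    intro η hη
    have := conv (𝕜 := 𝕜) (fun a => f a z • e a) η (2 * K * ‖z‖) A hη 0 fun B hB => by
      have := H.flat (by linarith) (u := z) (A := B) fun a ha n => by
        rw [z1 a (hB ha), z2 a (hB ha)]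
        by_cases hn : n ∈ A
        · rw [z1 n hn, z2 n hn]
        · rw [hz, h.f_W, if_neg hn, norm_zero]; exact hs.le
      simpa [W] using this
    simpa [W] using this
  have ne : ∀ a ∈ A, ((‖f a u‖ : ℝ) : 𝕜) ≠ 0 := fun a ha => by exact_mod_cast (p a ha).ne'
  have s0 : (s : 𝕜) ≠ 0 := by exact_mod_cast hs.ne'
  obtain ⟨y, hy⟩ : ∃ y, y = W e f z A fun a => d * ((1 - ‖f a u‖ / s) / d) := ⟨_, rfl⟩
  have y1 : ‖y‖ ≤ d * (2 * K * ‖z‖) := by
    rw [hy, W_mul, norm_smul, RCLike.norm_ofReal, abs_of_pos d0]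
    refine mul_le_mul_of_nonneg_left (z3 _ fun a ha => ⟨div_nonneg (sub_nonneg.2
      ((div_le_one hs).2 (h1 a))) d0.le, (div_le_one d0).2 ?_⟩) d0.le
    have := (le_div_iff₀ hs).2 (h2 a ha)
    linarith
  have y2 : ∀ a ∈ A, f a (u + y) = (s / ‖f a u‖ : ℝ) * f a u := fun a ha => by
    rw [map_add, hy, h.f_W, if_pos ha, z1 a ha, mul_div_cancel₀ _ d0.ne']
    have := ne a ha
    push_cast; field_simp; ring
  have y3 := H.flat (by linarith) (u := u + y) (A := A) fun a ha n => by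
    rw [y2 a ha, z2 a ha]
    by_cases hn : n ∈ A
    · rw [y2 n hn, z2 n hn]
    · rw [map_add, hy, h.f_W, if_neg hn, add_zero]; exact h1 n
  rw [W_congr (v := u) (η := fun a => s / ‖f a u‖) fun a ha => by simp [y2 a ha], ← hz] at y3
  have y4 : ‖z‖ ≤ 4 * K * ‖u‖ := by
    have := mul_le_mul_of_nonneg_left ((norm_add_le u y).trans (add_le_add le_rfl y1))
      (by linarith : 0 ≤ 2 * K)
    have : 2 * K * (d * (2 * K * ‖z‖)) = ‖z‖ / 2 := by linear_combination ‖z‖ / 2 * d1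
    linarith
  rw [W_congr (v := z) (η := fun a => θ a * (‖f a u‖ / s)) fun a ha => by
    rw [z1 a ha]
    have := ne a ha
    push_cast; field_simp]
  refine (z3 _ fun a ha => ⟨mul_nonneg (hθ a ha).1 (by positivity), mul_le_one₀ (hθ a ha).2
    (by positivity) ((div_le_one hs).2 (h1 a))⟩).trans ?_
  nlinarith

end Pool.Agent.H.MP_d7aa4b_an
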