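import Pool.Agent.H.MP_d7aa4b_an.A

set_option autoImplicit false
open Finset Filter Topology
open scoped Classical

namespace Pool.Agent.H.MP_d7aa4b_an

variable {𝕜 X : Type*} [RCLike 𝕜] [NormedAddCommGroup X] [NormedSpace 𝕜 X]
  {e : ℕ → X} {f : ℕ → X →L[𝕜] 𝕜} {c K q p Q : ℝ}

def Near (e : ℕ → X) (f : ℕ → X →L[𝕜] 𝕜) (q p : ℝ) : Prop :=
  ∀ (u : X) (A : Finset ℕ) (s : ℝ) (θ : ℕ → ℝ), 0 < s → (∀ n, ‖f n u‖ ≤ s) →
    (∀ a ∈ A, q * s ≤ ‖f a u‖) → (∀ a ∈ A, 0 ≤ θ a ∧ θ a ≤ 1) → ‖W e f u A θ‖ ≤ p * ‖u‖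

def QB (e : ℕ → X) (f : ℕ → X →L[𝕜] 𝕜) (N : ℕ) (Q : ℝ) : Prop :=
  ∀ (u : X) (A : Finset ℕ), #A ≤ N → GS f u A → ‖W e f u A 1‖ ≤ Q * ‖u‖

theorem Bas.f_sub (h : Bas e f c) (u : X) (T : Finset ℕ) (n : ℕ) :
    f n (u - W e f u T 1) = if n ∈ T then 0 else f n u := by
  rw [map_sub, h.f_W]; split_ifs <;> simp

theorem sub_le {u v : X} {r : ℝ} (h : ‖v‖ ≤ r * ‖u‖) : ‖u - v‖ ≤ (1 + r) * ‖u‖ := by
  linarith [norm_sub_le u v]

theorem Near.pow (H : Near e f q p) (h : Bas e f c) (q0 : 0 < q) (q1 : q ≤ 1) (p0 : 0 ≤ p)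
    (i : ℕ) : ∃ N, 0 ≤ N ∧ Near e f (q ^ i) N := by
  induction i with
  | zero => exact ⟨p, p0, fun u A s θ hs h1 h2 h3 => H u A s θ hs h1 (fun a ha =>
      le_trans (by simp; nlinarith) (h2 a ha)) h3⟩
  | succ i ih =>
    obtain ⟨N, N0, hN⟩ := ih
    refine ⟨p + N * (1 + p), by positivity, fun u A s θ hs h1 h2 h3 => ?_⟩
    obtain ⟨T, hT⟩ : ∃ T : Finset ℕ, ∀ n, n ∈ T ↔ q * s ≤ ‖f n u‖ :=
      ⟨(h.fin u (mul_pos q0 hs)).toFinset, fun n => by simp⟩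
    have a1 := sub_le (H u T s 1 hs h1 (fun a ha => (hT a).1 ha) (by simp))
    have a2 := H u (A.filter (· ∈ T)) s θ hs h1 (fun a ha => (hT a).1 (mem_filter.1 ha).2)
      fun a ha => h3 a (mem_filter.1 ha).1
    have a3 := hN (u - W e f u T 1) (A.filter fun a => ¬ a ∈ T) (q * s) θ (mul_pos q0 hs)
      (fun n => by
        rw [h.f_sub]; split_ifs with hn
        · simp; positivity
        · exact (not_le.1 fun h => hn ((hT n).2 h)).le)
      (fun a ha => by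
        rw [h.f_sub, if_neg (mem_filter.1 ha).2]
        exact le_trans (by rw [pow_succ, mul_assoc]) (h2 a (mem_filter.1 ha).1))
      fun a ha => h3 a (mem_filter.1 ha).1
    rw [W_congr (v := u) (η := θ) fun a ha => by
      rw [h.f_sub, if_neg (mem_filter.1 ha).2]] at a3
    rw [W_split u A θ (· ∈ T)]
    refine (norm_add_le _ _).trans ?_
    nlinarith [mul_le_mul_of_nonneg_left a1 N0]

theorem Near.tail (H : Near e f q p) (h : Bas e f c) (q0 : 0 < q) (q1 : q < 1) (p0 : 0 ≤ p)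
    {N : ℕ} (HQ : QB e f N Q) (Q0 : 0 ≤ Q) {u : X} {A : Finset ℕ} (hA : GS f u A) (hN : #A ≤ N)
    {θ : ℕ → ℝ} {t s : ℝ} (t0 : 0 < t) (s0 : 0 < s) {E : Finset ℕ} (hE : E ⊆ A)
    (h1 : ∀ a ∈ E, s ≤ ‖f a u‖) (h2 : ∀ a ∈ E, 0 ≤ θ a ∧ θ a * ‖f a u‖ ≤ t) :
    ‖W e f u E θ‖ ≤ t / s * (p * (1 + Q) / (1 - q) * ‖u‖) := by
  have c0 : 0 < c * ‖u‖ + 1 := by have := h.c1; positivity
  obtain ⟨j, hj⟩ := exists_pow_lt_of_lt_one (div_pos s0 c0) q1
  have h3 : ∀ a ∈ E, ‖f a u‖ * q ^ j < s := fun a _ => by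
    rw [lt_div_iff₀ c0] at hj
    nlinarith [h.hf a u, pow_pos q0 j]
  clear hj
  have q2 : 0 < 1 - q := by linarith
  induction j generalizing s E with
  | zero =>
    rw [eq_empty_of_forall_notMem fun a ha => (by simpa using h3 a ha : _ < s).not_ge (h1 a ha)]
    simp only [W, sum_empty, norm_zero]; positivity
  | succ j ih =>
    have sq := div_pos s0 q0
    have a1 := ih sq ((filter_subset (fun a => s / q ≤ ‖f a u‖) E).trans hE)
      (fun a ha => (mem_filter.1 ha).2) (fun a ha => h2 a (mem_filter.1 ha).1) fun a ha => by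
        rw [lt_div_iff₀ q0, mul_assoc, ← pow_succ]; exact h3 a (mem_filter.1 ha).1
    have a2 : ‖W e f u (E.filter fun a => ¬ s / q ≤ ‖f a u‖) θ‖ ≤ t / s * (p * (1 + Q) * ‖u‖) := by
      rcases (E.filter fun a => ¬ s / q ≤ ‖f a u‖).eq_empty_or_nonempty with h4 | ⟨b, hb⟩
      · rw [h4]; simp only [W, sum_empty, norm_zero]; positivity
      obtain ⟨b1, b2⟩ := mem_filter.1 hb
      have a3 := sub_le (HQ u _ ((card_filter_le _ _).trans hN) (hA.filter (s / q)))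
      have e1 : ∀ a ∈ E.filter fun a => ¬ s / q ≤ ‖f a u‖,
          f a (u - W e f u (A.filter fun a => s / q ≤ ‖f a u‖) 1) = f a u := fun a ha => by
        rw [h.f_sub, if_neg]; exact fun h => (mem_filter.1 ha).2 (mem_filter.1 h).2
      have a4 := H (u - W e f u (A.filter fun a => s / q ≤ ‖f a u‖) 1)
        (E.filter fun a => ¬ s / q ≤ ‖f a u‖) (s / q) (fun a => θ a * s / t) sq
        (fun n => by
          rw [h.f_sub]; split_ifs with hn
          · simpa using sq.le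
          · by_cases h5 : n ∈ A
            · exact (not_le.1 fun h => hn (mem_filter.2 ⟨h5, h⟩)).le
            · exact (hA b (hE b1) n h5).trans (not_le.1 b2).le)
        (fun a ha => by
          rw [e1 a ha, mul_div_cancel₀ _ q0.ne']; exact h1 a (mem_filter.1 ha).1)
        fun a ha => by
          obtain ⟨h5, h6⟩ := h2 a (mem_filter.1 ha).1
          exact ⟨by positivity, (div_le_one t0).2
            ((mul_le_mul_of_nonneg_left (h1 a (mem_filter.1 ha).1) h5).trans h6)⟩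
      rw [W_congr (η := fun a => t / s * (θ a * s / t))
        (v := u - W e f u (A.filter fun a => s / q ≤ ‖f a u‖) 1) fun a ha => by
          rw [e1 a ha]; congr 2; field_simp, W_mul, norm_smul, RCLike.norm_ofReal,
        abs_of_pos (div_pos t0 s0)]
      refine mul_le_mul_of_nonneg_left (a4.trans ?_) (div_pos t0 s0).le
      rw [mul_assoc]; exact mul_le_mul_of_nonneg_left a3 p0
    rw [W_split u E θ fun a => s / q ≤ ‖f a u‖]
    refine (norm_add_le _ _).trans ((add_le_add a1 a2).trans_eq ?_)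
    field_simp; ring

theorem Bas.f_trap (h : Bas e f c) (u : X) (A B : Finset ℕ) (w : ℕ → ℝ) (n : ℕ) :
    f n (u - (W e f u A 1 + W e f u (B \ A) w)) =
      ((if n ∈ A then 0 else if n ∈ B then 1 - w n else 1 : ℝ) : 𝕜) * f n u := by
  rw [map_sub, map_add, h.f_W, h.f_W]
  by_cases h1 : n ∈ A <;> by_cases h2 : n ∈ B <;> simp [h1, h2]
  ring

theorem Bas.f_trap_le (h : Bas e f c) (u : X) (A B : Finset ℕ) {w : ℕ → ℝ}
    (hw : ∀ a, 0 ≤ w a ∧ w a ≤ 1) (n : ℕ) :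
    ‖f n (u - (W e f u A 1 + W e f u (B \ A) w))‖ ≤ ‖f n u‖ := by
  rw [h.f_trap, norm_mul, RCLike.norm_ofReal]
  refine mul_le_of_le_one_left (norm_nonneg _) (abs_le.2 ?_)
  have := hw n
  split_ifs <;> constructor <;> linarith

theorem Bas.W_W (h : Bas e f c) (u : X) {A D : Finset ℕ} (hA : A ⊆ D) (θ : ℕ → ℝ) :
    W e f (W e f u A θ) D 1 = W e f u A θ := by
  rw [W, ← sum_subset hA fun a _ ha => by simp [h.f_W, ha]]
  exact W_congr (u := W e f u A θ) (θ := 1) fun a ha => by simp [h.f_W, ha]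

theorem W_add (u v : X) (D : Finset ℕ) (θ : ℕ → ℝ) :
    W e f (u + v) D θ = W e f u D θ + W e f v D θ := by
  simp [W, add_smul, sum_add_distrib]

theorem Bas.W_trap (h : Bas e f c) (u : X) {A B D : Finset ℕ} (h1 : A ⊆ B) (h2 : B ⊆ D)
    (w : ℕ → ℝ) : W e f u D 1 = (W e f u A 1 + W e f u (B \ A) w) +
      W e f (u - (W e f u A 1 + W e f u (B \ A) w)) (D \ A) 1 := by
  have := W_add (e := e) (f := f) (W e f u A 1 + W e f u (B \ A) w)
    (u - (W e f u A 1 + W e f u (B \ A) w)) D 1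
  rw [add_sub_cancel, W_add, h.W_W u (h1.trans h2), h.W_W u (sdiff_subset.trans h2)] at this
  rw [this]
  congr 1
  exact (sum_subset sdiff_subset fun a h3 h4 => by
    rw [h.f_trap, if_pos (by simpa [h3] using h4)]; simp).symm

theorem Ces.few (H : Ces e f K) (h : Bas e f c) (hK : 0 ≤ K) (HN : Near e f q p) (q0 : 0 < q)
    (q1 : q ≤ 1) (p0 : 0 ≤ p) {u : X} {A : Finset ℕ} {t : ℝ} (t0 : 0 < t)
    (h1 : ∀ a ∈ A, t ≤ ‖f a u‖) (h2 : ∀ a ∉ A, ‖f a u‖ ≤ t)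
    (h3 : 4 * #(A.filter fun a => t / q ≤ ‖f a u‖) + 2 ≤ #A) :
    ‖W e f u A 1‖ ≤ (K * 3 + p * (1 + K * 3)) * ‖u‖ := by
  have hA : GS f u A := fun a ha n hn => (h2 n hn).trans (h1 a ha)
  have hS := hA.filter (t / q)
  obtain ⟨S, S0⟩ : ∃ S, S = A.filter fun a => t / q ≤ ‖f a u‖ := ⟨_, rfl⟩
  rw [← S0] at h3 hS
  obtain ⟨B, b1, b2, b3, b4⟩ := hS.mid hA (S0 ▸ filter_subset _ _) (#S + 1) (by omega)
  obtain ⟨D, d1, d2, d3, d4⟩ := b4.mid hA b2 #B (by omega)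
  obtain ⟨w, w1, w2⟩ := H.trap hS b4 b1 (r := 3) hK (by omega) (by
    rw [b3]; push_cast; linarith)
  obtain ⟨z, z1, z2⟩ := H.trap b4 d4 d1 (r := 3) hK (by omega) (by
    rw [d3]; push_cast; linarith)
  have tq : t ≤ t / q := le_div_self t0.le q0 q1
  have e1 : ∀ a ∈ A \ B, f a (u - (W e f u S 1 + W e f u (B \ S) w)) = f a u := fun a ha => by
    have := (mem_sdiff.1 ha).2
    rw [h.f_trap, if_neg fun h => this (b1 h), if_neg this]; simp
  have a1 := HN (u - (W e f u S 1 + W e f u (B \ S) w)) (A \ B) (t / q)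
    (fun a => if a ∈ D then 1 - z a else 1) (div_pos t0 q0)
    (fun n => by
      by_cases hn : n ∈ S
      · rw [h.f_trap, if_pos hn]; simp; positivity
      · refine (h.f_trap_le u S B w1 n).trans ?_
        by_cases h4 : n ∈ A
        · exact (not_le.1 fun h => hn (S0 ▸ mem_filter.2 ⟨h4, h⟩)).le
        · exact (h2 n h4).trans tq)
    (fun a ha => by rw [e1 a ha, mul_div_cancel₀ _ q0.ne']; exact h1 a (mem_sdiff.1 ha).1)
    fun a _ => by have := z1 a; split_ifs <;> constructor <;> linarith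
  rw [W_congr (v := u - (W e f u B 1 + W e f u (D \ B) z)) (η := 1) fun a ha => by
    rw [e1 a ha, h.f_trap, if_neg (mem_sdiff.1 ha).2]; simp] at a1
  rw [h.W_trap u d1 d2 z]
  refine (norm_add_le _ _).trans ?_
  nlinarith [mul_le_mul_of_nonneg_left (sub_le w2) p0]

theorem Ces.many (H : Ces e f K) (h : Bas e f c) (hK : 0 ≤ K) {u : X} {A : Finset ℕ} {t s T : ℝ}
    (t0 : 0 < t) (h1 : ∀ a ∈ A, t ≤ ‖f a u‖) (h2 : ∀ a ∉ A, ‖f a u‖ ≤ t)
    (hT : ∀ (E : Finset ℕ) (θ : ℕ → ℝ), E ⊆ A → (∀ a ∈ E, s ≤ ‖f a u‖) →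
      (∀ a ∈ E, 0 ≤ θ a ∧ θ a * ‖f a u‖ ≤ t) → ‖W e f u E θ‖ ≤ T)
    (h3 : #A < 4 * #(A.filter fun a => s ≤ ‖f a u‖) + 2)
    (h4 : 2 ≤ #(A.filter fun a => s ≤ ‖f a u‖)) :
    ‖W e f u A 1‖ ≤ (K * 3 + K * 27 * (1 + K * 3)) * ‖u‖ + (K * 27 + 2) * T := by
  have hA : GS f u A := fun a ha n hn => (h2 n hn).trans (h1 a ha)
  have hS := hA.filter s
  obtain ⟨S, S0⟩ : ∃ S, S = A.filter fun a => s ≤ ‖f a u‖ := ⟨_, rfl⟩
  rw [← S0] at h3 h4 hS
  have S1 : ∀ a ∈ S, a ∈ A ∧ s ≤ ‖f a u‖ := fun a ha => by simpa [S0] using ha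
  obtain ⟨B, -, b2, b3, b4⟩ := GS.mid (A := ∅) (by simp [GS]) hS (empty_subset _) (#S / 2)
    (by simp; omega)
  rw [card_empty, zero_add] at b3
  obtain ⟨D, d1, d2, d3, d4⟩ := b4.mid hS b2 #B (by omega)
  obtain ⟨w, w1, w2⟩ := H.trap b4 d4 d1 (r := 3) hK (by omega) (by
    rw [d3]; push_cast; linarith)
  rw [h.W_trap u d1 (fun a ha => (S1 a (d2 ha)).1) w]
  have e0 := h.f_trap u B D w
  have e1 := h.f_trap_le u B D w1
  have e2 := sub_le w2
  obtain ⟨x, hx⟩ : ∃ x, x = u - (W e f u B 1 + W e f u (D \ B) w) := ⟨_, rfl⟩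
  rw [← hx] at e0 e1 e2 ⊢
  have p0 : ∀ a ∈ B, 0 < ‖f a u‖ := fun a ha => t0.trans_le (h1 a (S1 a (b2 ha)).1)
  have tl : ∀ z : ℕ → ℝ, (∀ a, 0 ≤ z a ∧ z a ≤ 1) →
      ‖W e f u B fun a => z a * (t / ‖f a u‖)‖ ≤ T := fun z hz =>
    hT _ _ (fun a ha => (S1 a (b2 ha)).1) (fun a ha => (S1 a (b2 ha)).2) fun a ha =>
      ⟨mul_nonneg (hz a).1 (by positivity), by
        rw [mul_assoc, div_mul_cancel₀ _ (p0 a ha).ne']; exact mul_le_of_le_one_left t0.le (hz a).2⟩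
  obtain ⟨v, hv⟩ : ∃ v, v = x + W e f u B fun a => 1 * (t / ‖f a u‖) := ⟨_, rfl⟩
  have v0 : ‖v‖ ≤ (1 + K * 3) * ‖u‖ + T :=
    hv ▸ (norm_add_le _ _).trans (add_le_add e2 (tl 1 (by simp)))
  have v1 : ∀ a ∈ B, f a v = (t / ‖f a u‖ : ℝ) * f a u := fun a ha => by
    rw [hv, map_add, e0, h.f_W, if_pos ha, if_pos ha]; simp
  have v2 : ∀ a ∈ B, ‖f a v‖ = t := fun a ha => by
    rw [v1 a ha, norm_mul, RCLike.norm_ofReal, abs_of_pos (div_pos t0 (p0 a ha)),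
      div_mul_cancel₀ _ (p0 a ha).ne']
  have v3 : ∀ a ∉ B, f a v = f a x := fun a ha => by rw [hv, map_add, h.f_W, if_neg ha, add_zero]
  rw [W_split x (A \ B) 1 fun a => t ≤ ‖f a x‖]
  obtain ⟨G, G0⟩ : ∃ G, G = (A \ B).filter fun a => t ≤ ‖f a x‖ := ⟨_, rfl⟩
  have G1 : ∀ a, a ∈ G ↔ (a ∈ A ∧ a ∉ B) ∧ t ≤ ‖f a x‖ := fun a => by simp [G0]
  have G2 : #G ≤ #A := card_le_card fun a ha => ((G1 a).1 ha).1.1
  rw [← G0]
  have g1 : ∀ a ∈ G ∪ B, t ≤ ‖f a v‖ := fun a ha => by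
    rcases mem_union.1 ha with ha | ha
    · rw [v3 a ((G1 a).1 ha).1.2]; exact ((G1 a).1 ha).2
    · rw [v2 a ha]
  have g2 : ∀ a ∉ G, ‖f a v‖ ≤ t := fun a ha => by
    by_cases h5 : a ∈ B
    · rw [v2 a h5]
    rw [v3 a h5]
    by_cases h6 : a ∈ A
    · exact (not_le.1 fun h => ha ((G1 a).2 ⟨⟨h6, h5⟩, h⟩)).le
    · exact (e1 a).trans (h2 a h6)
  have dj : Disjoint G B := disjoint_left.2 fun a ha => ((G1 a).1 ha).1.2
  have g3 := card_union_of_disjoint dj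
  obtain ⟨z, z1, z2⟩ := H.trap (u := v) (A := G) (B := G ∪ B)
    (fun a ha n hn => (g2 n hn).trans (g1 a (mem_union_left _ ha)))
    (fun a ha n hn => (g2 n fun h => hn (mem_union_left _ h)).trans (g1 a ha)) subset_union_left
    (r := 27) hK (by omega) (by
      rw [g3]; push_cast
      have : (#G : ℝ) ≤ 13 * #B := by exact_mod_cast (by omega : #G ≤ 13 * #B)
      linarith)
  rw [union_sdiff_cancel_left dj, W_congr (v := x) (η := 1) fun a ha => by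
    rw [v3 a ((G1 a).1 ha).1.2], W_congr (A := B) (v := u) (η := fun a => z a * (t / ‖f a u‖))
      fun a ha => by rw [v1 a ha]; push_cast; ring] at z2
  have m : ∀ a ∈ (A \ B).filter fun a => ¬ t ≤ ‖f a x‖, a ∈ D ∧ f a x = (1 - w a : ℝ) * f a u ∧
      ‖f a x‖ ≤ t := fun a ha => by
    obtain ⟨h5, h6⟩ := mem_filter.1 ha
    obtain ⟨h7, h8⟩ := mem_sdiff.1 h5
    have h9 : a ∈ D := by
      by_contra h9
      exact h6 (by rw [e0, if_neg h8, if_neg h9]; simpa using h1 a h7)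
    exact ⟨h9, by rw [e0, if_neg h8, if_pos h9], (not_le.1 h6).le⟩
  have a1 := hT ((A \ B).filter fun a => ¬ t ≤ ‖f a x‖) (fun a => 1 - w a)
    (fun a ha => (S1 a (d2 (m a ha).1)).1) (fun a ha => (S1 a (d2 (m a ha).1)).2) fun a ha => by
      obtain ⟨-, h5, h6⟩ := m a ha
      have := sub_nonneg.2 (w1 a).2
      rw [h5, norm_mul, RCLike.norm_ofReal, abs_of_nonneg this] at h6
      exact ⟨this, h6⟩
  rw [W_congr (v := x) (η := 1) fun a ha => by rw [(m a ha).2.1]; simp] at a1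
  have a2 := norm_sub_le (W e f x G 1 + W e f u B fun a => z a * (t / ‖f a u‖))
    (W e f u B fun a => z a * (t / ‖f a u‖))
  rw [add_sub_cancel_right] at a2
  refine (norm_add_le _ _).trans ((add_le_add w2 (norm_add_le _ _)).trans ?_)
  nlinarith [tl z z1, mul_le_mul_of_nonneg_left v0 (by positivity : 0 ≤ K * 27)]

theorem Ces.qg (H : Ces e f K) (h : Bas e f c) (hK : 1 ≤ K) :
    ∃ Q, ∀ (u : X) (A : Finset ℕ), GS f u A → ‖W e f u A 1‖ ≤ Q * ‖u‖ := by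
  have HN : Near e f (1 - 1 / (8 * K ^ 2)) (8 * K ^ 2) := fun u A s θ hs h1 h2 h3 =>
    H.near h hK hs h1 h2 h3
  have p1 : 1 < 8 * K ^ 2 := by nlinarith
  have q0 : 0 < 1 - 1 / (8 * K ^ 2) := sub_pos.2 ((div_lt_one (by positivity)).2 p1)
  have q1 : 1 - 1 / (8 * K ^ 2) < 1 := sub_lt_self _ (by positivity)
  generalize 1 - 1 / (8 * K ^ 2) = q at HN q0 q1
  generalize 8 * K ^ 2 = p at HN p1
  have q2 : 0 < 1 - q := by linarith
  have c1 := h.c1
  obtain ⟨i, hi⟩ := exists_pow_lt_of_lt_one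
    (by positivity : 0 < (1 - q) / (2 * (K * 27 + 2) * p)) q1
  obtain ⟨M, M0, HM⟩ := HN.pow h q0 q1.le (by positivity) i
  have r0 := pow_pos q0 i
  have r1 := pow_le_one₀ (n := i) q0.le q1.le
  generalize q ^ i = r at hi HM r0 r1
  obtain ⟨C, hC⟩ : ∃ C, C = K * 3 + M * (1 + K * 3) + 5 * c ^ 2 + K * 27 * (1 + K * 3) + 1 :=
    ⟨_, rfl⟩
  have C0 : 0 ≤ C := by rw [hC]; positivity
  have st : ∀ N Q, 0 ≤ Q → QB e f N Q → QB e f N (C + Q / 2) := by
    intro N Q Q0 HQ u A0 hN0 hA0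
    have n0 := norm_nonneg u
    obtain ⟨A, A1⟩ : ∃ A, A = A0.filter fun a => f a u ≠ 0 := ⟨_, rfl⟩
    have hN : #A ≤ N := (A1 ▸ card_filter_le _ _).trans hN0
    rw [show W e f u A0 1 = W e f u A 1 from (A1 ▸ sum_subset (filter_subset _ _) fun a h1 h2 => by
      simp [show f a u = 0 by simpa [h1] using h2]).symm]
    rcases A.eq_empty_or_nonempty with rfl | hne
    · simp only [W, sum_empty, norm_zero]; positivity
    obtain ⟨b, hb, h1⟩ := exists_min_image A (fun a => ‖f a u‖) hne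
    obtain ⟨b1, b2⟩ := mem_filter.1 (A1 ▸ hb)
    have h2 : ∀ a ∉ A, ‖f a u‖ ≤ ‖f b u‖ := fun a ha => by
      by_cases h3 : a ∈ A0
      · simp [show f a u = 0 by simpa [A1, h3] using ha]
      · exact hA0 b b1 a h3
    have t0 := norm_pos_iff.2 b2
    generalize ‖f b u‖ = t at h1 h2 t0
    have k1 : 0 ≤ M * (1 + K * 3) * ‖u‖ := by positivity
    have k2 : 0 ≤ c ^ 2 * ‖u‖ := by positivity
    have k3 : 0 ≤ K * 27 * (1 + K * 3) * ‖u‖ := by positivity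
    have k4 : 0 ≤ K * ‖u‖ := by positivity
    have k5 : 0 ≤ Q * ‖u‖ := by positivity
    rw [hC]
    rcases lt_or_ge #A (4 * #(A.filter fun a => t / r ≤ ‖f a u‖) + 2) with h3 | h3
    · rcases lt_or_ge #(A.filter fun a => t / r ≤ ‖f a u‖) 2 with h4 | h4
      · have : (#A : ℝ) ≤ 5 := by exact_mod_cast (by omega : #A ≤ 5)
        nlinarith [h.W_le u A]
      · have a1 := H.many h (by linarith) t0 h1 h2 (fun E θ h5 h6 h7 =>
          HN.tail h q0 q1 (by positivity) HQ Q0 (fun a ha n hn => (h2 n hn).trans (h1 a ha)) hN t0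
            (div_pos t0 r0) h5 h6 h7) h3 h4
        have a2 : (K * 27 + 2) * (t / (t / r) * (p * (1 + Q) / (1 - q) * ‖u‖)) ≤
            (1 + Q) * ‖u‖ / 2 := by
          rw [lt_div_iff₀ (by positivity)] at hi
          have : (K * 27 + 2) * (t / (t / r) * (p * (1 + Q) / (1 - q) * ‖u‖)) =
              r * (2 * (K * 27 + 2) * p) / (1 - q) * ((1 + Q) * ‖u‖ / 2) := by field_simp
          rw [this]
          exact mul_le_of_le_one_left (by positivity) ((div_le_one q2).2 hi.le)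
        nlinarith
    · nlinarith [H.few h (by linarith) HM r0 r1 M0 t0 h1 h2 h3]
  refine ⟨2 * C + 1, fun u A hA => ?_⟩
  have it : ∀ n : ℕ, QB e f #A (2 * C + #A * c ^ 2 * (1 / 2) ^ n) := fun n => by
    induction n with
    | zero =>
      intro v B hB _
      have : (#B : ℝ) ≤ #A := by exact_mod_cast hB
      nlinarith [h.W_le v B, mul_nonneg C0 (norm_nonneg v),
        mul_le_mul_of_nonneg_right this (by positivity : 0 ≤ c ^ 2 * ‖v‖)]
    | succ n ih => convert st _ _ (by positivity) ih using 1; ring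
  obtain ⟨n, hn⟩ := exists_pow_lt_of_lt_one (by positivity : 0 < 1 / ((#A : ℝ) * c ^ 2 + 1))
    (by norm_num : (1 / 2 : ℝ) < 1)
  rw [lt_div_iff₀ (by positivity)] at hn
  refine (it n u A le_rfl hA).trans (mul_le_mul_of_nonneg_right ?_ (norm_nonneg u))
  nlinarith [pow_pos (by norm_num : (0 : ℝ) < 1 / 2) n]

end Pool.Agent.H.MP_d7aa4b_an
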