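import Pool.Agent.H.MP_d7aa4b_an.B

set_option autoImplicit false
open Finset Filter Topology
open scoped Classical

namespace Pool.Agent.H.MP_d7aa4b_an

variable {𝕜 X : Type*} [RCLike 𝕜] [NormedAddCommGroup X] [NormedSpace 𝕜 X]
  {e : ℕ → X} {f : ℕ → X →L[𝕜] 𝕜} {c K : ℝ}

theorem GG_congr {u v : X} {L : List ℕ} (h : ∀ a ∈ L, f a u = f a v) :
    GG e f u L = GG e f v L := by
  rw [GG, GG, List.map_congr_left fun a ha => by rw [h a ha]]

theorem FF_congr {u v : X} {L : List ℕ} (h : ∀ a ∈ L, f a u = f a v) :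
    FF e f u L = FF e f v L := by
  induction L with
  | nil => rfl
  | cons a L ih => rw [FF, FF, h a (by simp), ih fun b hb => h b (by simp [hb])]

theorem FF_add (u v : X) (L : List ℕ) : FF e f (u + v) L = FF e f u L + FF e f v L := by
  induction L with
  | nil => simp [FF]
  | cons a L ih => simp only [FF, ih, map_add]; module

theorem Bas.GG_le (h : Bas e f c) (u : X) (L : List ℕ) :
    ‖GG e f u L‖ ≤ L.length * (c ^ 2 * ‖u‖) := by
  induction L with
  | nil => simp [GG]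
  | cons a L ih =>
    simp only [GG, List.map_cons, List.sum_cons, List.length_cons] at ih ⊢
    push_cast
    linarith [norm_add_le (f a u • e a) (L.map fun a => f a u • e a).sum, h.one u a]

theorem Bas.FF_le (h : Bas e f c) (u : X) (L : List ℕ) :
    ‖FF e f u L‖ ≤ L.length ^ 2 * (c ^ 2 * ‖u‖) := by
  induction L with
  | nil => simp [FF]
  | cons a L ih =>
    rw [FF]
    refine (norm_add_le _ _).trans ?_
    rw [norm_smul, RCLike.norm_natCast, List.length_cons]
    push_cast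
    have : 0 ≤ c ^ 2 * ‖u‖ := by positivity
    nlinarith [mul_le_mul_of_nonneg_left (h.one u a) (by positivity : (0 : ℝ) ≤ L.length + 1),
      mul_nonneg (Nat.cast_nonneg (α := ℝ) L.length) this]

def CS (e : ℕ → X) (f : ℕ → X →L[𝕜] 𝕜) (S : List ℕ) (K : ℝ) : Prop :=
  ∀ u L, (∀ a ∈ S, f a u = 0 ∧ a ∉ L) → Gr f u L → ‖FF e f u L‖ ≤ K * L.length * ‖u‖

theorem CS.ces (h : Bas e f c) (S : List ℕ) : ∀ K, 0 ≤ K → CS e f S K → ∃ K, 1 ≤ K ∧ Ces e f K := by
  induction S with
  | nil => exact fun K K0 H => ⟨K + 1, by linarith, fun u L hL =>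
      (H u L (by simp) hL).trans (by gcongr; linarith)⟩
  | cons s S ih =>
    refine fun K K0 H => ih (K * (1 + c ^ 2) + c ^ 2) (by positivity) fun u L h1 h2 => ?_
    have n1 := sub_le (h.one u s)
    have e1 : ∀ n, f n (u - f s u • e s) = if n = s then 0 else f n u := fun n => by
      rw [map_sub, map_smul, h.bi]; split_ifs with hn <;> simp [hn]
    have key : ∀ M : List ℕ, M.Sublist L → (∀ a ∈ L, a ∈ M ∨ a = s) → s ∉ M →
        ‖FF e f u M‖ ≤ K * L.length * ((1 + c ^ 2) * ‖u‖) := fun M m1 m2 m3 => by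
      have e2 : ∀ a ∈ M, f a (u - f s u • e s) = f a u := fun a ha => by
        rw [e1, if_neg (by rintro rfl; exact m3 ha)]
      have := H (u - f s u • e s) M (fun a ha => by
        rcases List.mem_cons.1 ha with rfl | ha
        · exact ⟨by simp [e1], m3⟩
        · exact ⟨by simp [e1, (h1 a ha).1], fun h => (h1 a ha).2 (m1.subset h)⟩)
        ⟨h2.1.sublist m1, (h2.2.1.sublist m1).imp_of_mem fun ha hb h => by
          rwa [e2 _ ha, e2 _ hb], fun a ha n hn => by
          rw [e2 a (by simpa using ha), e1]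
          split_ifs with h3
          · simp
          · exact h2.2.2 a (by simpa using m1.subset (by simpa using ha)) n fun h4 =>
              (m2 n (by simpa using h4)).elim (fun h => hn (by simpa using h)) h3⟩
      rw [FF_congr e2] at this
      have l : (M.length : ℝ) ≤ L.length := by exact_mod_cast m1.length_le
      exact this.trans (by gcongr)
    have p : 0 ≤ L.length * (c ^ 2 * ‖u‖) := by positivity
    by_cases hs : s ∈ L
    · obtain ⟨A, B, rfl⟩ := List.append_of_mem hs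
      have a1 := key (A ++ B) (by simp) (by simp; tauto) (by
        have := h2.1; grind)
      have e3 : FF e f u (A ++ s :: B) = FF e f u (A ++ B) + (GG e f u A +
          ((B.length + 1 : ℕ) : 𝕜) • f s u • e s) := by
        simp only [FF_append, FF, List.length_cons]; push_cast; module
      have a2 := norm_add_le (GG e f u A) (((B.length + 1 : ℕ) : 𝕜) • f s u • e s)
      rw [norm_smul, RCLike.norm_natCast] at a2
      rw [e3]
      refine (norm_add_le _ _).trans ?_
      simp only [List.length_append, List.length_cons] at a1 ⊢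
      push_cast at a1 a2 ⊢
      nlinarith [h.GG_le u A, mul_le_mul_of_nonneg_left (h.one u s)
        (by positivity : (0 : ℝ) ≤ B.length + 1)]
    · nlinarith [key L (List.Sublist.refl L) (fun a ha => Or.inl ha) hs]

def Fi (f : ℕ → X →L[𝕜] 𝕜) (u : X) (P : List ℕ) : Prop :=
  P.Nodup ∧ P.Pairwise (fun a b => ‖f b u‖ ≤ ‖f a u‖) ∧ ∀ n, f n u ≠ 0 ↔ n ∈ P

theorem exists_sign (z : 𝕜) : ∃ w : 𝕜, ‖w‖ = 1 ∧ ∀ d : ℝ, 0 ≤ d → ‖z + d * w‖ = ‖z‖ + d := by
  by_cases h : z = 0
  · exact ⟨1, by simp, fun d hd => by simp [h, abs_of_nonneg hd]⟩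
  have p := norm_pos_iff.2 h
  have p' : ((‖z‖ : ℝ) : 𝕜) ≠ 0 := by exact_mod_cast p.ne'
  refine ⟨z / (‖z‖ : ℝ), by simp [h], fun d hd => ?_⟩
  have : z + d * (z / (‖z‖ : ℝ)) = ((‖z‖ + d) / ‖z‖ : ℝ) * z := by push_cast; field_simp
  rw [this, norm_mul, RCLike.norm_ofReal, abs_of_pos (by positivity), div_mul_cancel₀ _ p.ne']

theorem Bas.approx (h : Bas e f c) {u : X} {S L : List ℕ} (h1 : ∀ a ∈ S, f a u = 0 ∧ a ∉ L)
    (h2 : Gr f u L) {d : ℝ} (hd : 0 < d) : ∃ v M, (∀ a ∈ S, f a v = 0) ∧ Fi f v (L ++ M) ∧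
      ‖v - u‖ ≤ d := by
  have c1 := h.c1
  obtain ⟨T, hT⟩ : ∃ T, T = S.toFinset ∪ L.toFinset := ⟨_, rfl⟩
  obtain ⟨r, hr⟩ : ∃ r : ℝ, r = d / (1 + 2 * #T * c) := ⟨_, rfl⟩
  have r0 : 0 < r := by rw [hr]; positivity
  obtain ⟨y, y1, y2⟩ := h.den.exists_dist_lt u (by positivity : 0 < r / c)
  obtain ⟨l, hl⟩ := (Finsupp.mem_span_range_iff_exists_finsupp).1 y1
  have y3 : ∀ n ∉ l.support, f n y = 0 := fun n hn => by
    simp only [← hl, Finsupp.sum, map_sum, map_smul, h.bi]
    exact sum_eq_zero fun i hi => by rw [if_neg (by rintro rfl; exact hn hi), smul_zero]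
  rw [dist_eq_norm, lt_div_iff₀ (by positivity)] at y2
  have y4 : ∀ n, ‖f n u - f n y‖ ≤ r := fun n => by
    rw [← map_sub]; linarith [h.hf n (u - y)]
  choose σ s1 s2 using fun a => exists_sign (f a u)
  obtain ⟨g, hg⟩ : ∃ g : ℕ → 𝕜, g = fun a => f a u + if a ∈ L then r * σ a else 0 := ⟨_, rfl⟩
  obtain ⟨v, hv⟩ : ∃ v, v = y + ∑ a ∈ T, (g a - f a y) • e a := ⟨_, rfl⟩
  have v1 : ∀ n, f n v = if n ∈ T then g n else f n y := fun n => by
    simp only [hv, map_add, map_sum, map_smul, h.bi, smul_eq_mul, mul_ite, mul_one, mul_zero,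
      sum_ite_eq]
    split_ifs <;> simp
  have v2 : ∀ a ∈ L, ‖f a v‖ = ‖f a u‖ + r := fun a ha => by
    rw [v1, if_pos (by simp [hT, ha]), hg]; simp only [if_pos ha]; exact s2 a r r0.le
  have v3 : ∀ a ∈ S, f a v = 0 := fun a ha => by
    rw [v1, if_pos (by simp [hT, ha]), hg]; simp [h1 a ha]
  obtain ⟨M, m1, m2, -, m4⟩ := sorted (fun a => ‖f a v‖)
    (l.support.filter fun a => a ∉ T ∧ f a v ≠ 0)
  have m5 : ∀ a, a ∈ M ↔ a ∈ l.support ∧ a ∉ T ∧ f a v ≠ 0 := fun a => by
    rw [← List.mem_toFinset, m2, mem_filter]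
  refine ⟨v, M, v3, ⟨List.nodup_append.2 ⟨h2.1, m1, fun a ha b hb h => ((m5 b).1 hb).2.1
    (by simp [hT, ← h, ha])⟩, List.pairwise_append.2 ⟨h2.2.1.imp_of_mem fun ha hb h => by
      rw [v2 _ ha, v2 _ hb]; linarith, m4, fun a ha b hb => ?_⟩, fun n => ⟨fun hn => ?_, fun hn => ?_⟩⟩, ?_⟩
  · have b1 := ((m5 b).1 hb).2.1
    rw [v2 a ha, v1, if_neg b1]
    have := h2.2.2 a (by simpa using ha) b fun h => b1 (hT ▸ mem_union_right _ h)
    linarith [norm_sub_norm_le (f b y) (f b u), norm_sub_rev (f b y) (f b u), y4 b]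
  · by_cases h3 : n ∈ T
    · rcases mem_union.1 (hT ▸ h3) with h4 | h4
      · exact (hn (v3 n (by simpa using h4))).elim
      · exact List.mem_append_left _ (by simpa using h4)
    · refine List.mem_append_right _ ((m5 n).2 ⟨?_, h3, hn⟩)
      by_contra h4
      exact hn (by rw [v1, if_neg h3, y3 n h4])
  · rcases List.mem_append.1 hn with hn | hn
    · exact norm_pos_iff.1 (by rw [v2 n hn]; positivity)
    · exact ((m5 n).1 hn).2.2
  · have a1 : ‖∑ a ∈ T, (g a - f a y) • e a‖ ≤ #T * (2 * r * c) := by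
      refine (norm_sum_le _ _).trans ((sum_le_card_nsmul _ _ _ fun a _ => ?_).trans_eq
        (nsmul_eq_mul _ _))
      rw [norm_smul]
      refine mul_le_mul ?_ (h.he a) (norm_nonneg _) (by positivity)
      rw [hg, add_sub_right_comm]
      refine (norm_add_le _ _).trans ?_
      have : ‖if a ∈ L then r * σ a else 0‖ ≤ r := by
        split_ifs
        · simp [s1, abs_of_pos r0]
        · simpa using r0.le
      linarith [y4 a]
    rw [hv, add_sub_right_comm]
    refine (norm_add_le _ _).trans ?_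
    rw [eq_div_iff (by positivity)] at hr
    rw [norm_sub_rev]
    nlinarith [norm_nonneg (u - y)]

theorem FF_smul (t : 𝕜) (u : X) (L : List ℕ) : FF e f (t • u) L = t • FF e f u L := by
  induction L with
  | nil => simp [FF]
  | cons a L ih => simp only [FF, ih, map_smul, smul_eq_mul]; module

theorem Gr.smul {u : X} {L : List ℕ} (h : Gr f u L) (t : 𝕜) : Gr f (t • u) L :=
  ⟨h.1, h.2.1.imp fun h => by simp only [map_smul, norm_smul]; gcongr, fun a ha n hn => by
    simp only [map_smul, norm_smul]; gcongr; exact h.2.2 a ha n hn⟩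

theorem Bas.hump (h : Bas e f c) (H : ¬ ∃ K, 1 ≤ K ∧ Ces e f K) {x : X} {P : List ℕ}
    (hx : Fi f x P) (j : ℕ) : ∃ y L M, Fi f y (P ++ (L ++ M)) ∧ L ≠ [] ∧
      ‖x - y‖ ≤ 1 * (1 / 2) ^ j ∧ (∀ a ∈ P, f a y = f a x) ∧
      j * (P ++ L).length < ‖FF e f y (P ++ L)‖ := by
  have c1 := h.c1
  obtain ⟨r, r0, r1, r2⟩ : ∃ r : ℝ, 0 < r ∧ r ≤ (1 / 2) ^ j ∧ ∀ a ∈ P, c * r ≤ ‖f a x‖ := by
    have : ∀ᶠ r in 𝓝[>] (0 : ℝ), 0 < r ∧ r ≤ (1 / 2) ^ j ∧ ∀ a ∈ P.toFinset, c * r ≤ ‖f a x‖ := by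
      refine Eventually.and self_mem_nhdsWithin (nhdsWithin_le_nhds (Eventually.and
        (Iic_mem_nhds (by positivity)) ((eventually_all_finset _).2 fun a ha => ?_)))
      have : 0 < ‖f a x‖ := norm_pos_iff.2 ((hx.2.2 a).2 (by simpa using ha))
      filter_upwards [Iic_mem_nhds (div_pos this (by linarith : 0 < c))] with r hr
      rwa [Set.mem_Iic, le_div_iff₀' (by linarith)] at hr
    simpa using this.exists
  obtain ⟨R, hR⟩ : ∃ R : ℝ, R = j * (P.length + 1) + ‖FF e f x P‖ + ‖GG e f x P‖ + 1 := ⟨_, rfl⟩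
  have R0 : 0 < R := by rw [hR]; positivity
  have := fun h1 => H (CS.ces h P (R / (r / 2)) (by positivity) h1)
  simp only [CS, imp_false, not_forall, not_le] at this
  obtain ⟨u, L, u1, u2, u3⟩ := this
  have L0 : L ≠ [] := by rintro rfl; simp [FF] at u3
  have u0 : u ≠ 0 := by
    rintro rfl
    have := h.FF_le 0 L
    simp only [norm_zero, mul_zero] at this u3; linarith
  have u4 := norm_pos_iff.2 u0
  have l1 : (1 : ℝ) ≤ L.length := by exact_mod_cast List.length_pos_iff.2 L0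
  obtain ⟨w, hw⟩ : ∃ w, w = ((r / 2 / ‖u‖ : ℝ) : 𝕜) • u := ⟨_, rfl⟩
  have w1 : ‖w‖ = r / 2 := by
    rw [hw, norm_smul, RCLike.norm_ofReal, abs_of_pos (by positivity), div_mul_cancel₀ _ u4.ne']
  have w2 : R * L.length < ‖FF e f w L‖ := by
    rw [hw, FF_smul, norm_smul, RCLike.norm_ofReal, abs_of_pos (by positivity)]
    refine lt_of_eq_of_lt ?_ (mul_lt_mul_of_pos_left u3 (by positivity))
    field_simp
  obtain ⟨v, M, v1, v2, v3⟩ := h.approx (u := w) (S := P) (L := L)
    (fun a ha => ⟨by simp [hw, (u1 a ha).1], (u1 a ha).2⟩) (hw ▸ u2.smul _)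
    (lt_min (by positivity : 0 < r / 2) (by positivity : 0 < 1 / (L.length * c ^ 2)))
  obtain ⟨v4, v5⟩ := le_min_iff.1 v3
  have v6 : ‖v‖ ≤ r := by linarith [norm_sub_norm_le v w]
  have e1 : ∀ a ∈ P, f a (x + v) = f a x := fun a ha => by simp [v1 a ha]
  have e2 : ∀ a ∉ P, f a (x + v) = f a v := fun a ha => by
    simp [show f a x = 0 from by_contra fun h => ha ((hx.2.2 a).1 h)]
  have e3 : ∀ a ∈ L ++ M, a ∉ P := fun a ha h => (v2.2.2 a).2 ha (v1 a h)
  refine ⟨x + v, L, M, ⟨List.nodup_append.2 ⟨hx.1, v2.1, fun a ha b hb h => e3 b hb (h ▸ ha)⟩,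
    List.pairwise_append.2 ⟨hx.2.1.imp_of_mem fun ha hb h => by rwa [e1 _ ha, e1 _ hb],
      v2.2.1.imp_of_mem fun ha hb h => by rwa [e2 _ (e3 _ ha), e2 _ (e3 _ hb)],
      fun a ha b hb => ?_⟩, fun n => ?_⟩, L0, by simpa using v6.trans (by simpa using r1), e1, ?_⟩
  · rw [e1 a ha, e2 b (e3 b hb)]
    exact (h.hf b v).trans ((mul_le_mul_of_nonneg_left v6 (by linarith)).trans (r2 a ha))
  · by_cases hn : n ∈ P
    · simp only [e1 n hn, hx.2.2, hn, List.mem_append, true_or]
    · rw [e2 n hn, v2.2.2, List.mem_append (s := P)]; simp only [hn, false_or]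
  · rw [FF_append, FF_congr e1, GG_congr e1,
      FF_congr fun a ha => e2 a (e3 a (List.mem_append_left _ ha))]
    have a1 := FF_add (e := e) (f := f) w (v - w) L
    rw [add_sub_cancel] at a1
    have a2 := h.FF_le (v - w) L
    rw [le_div_iff₀ (by positivity)] at v5
    have a3 : FF e f w L = FF e f x P + (L.length : 𝕜) • GG e f x P + FF e f v L - FF e f x P -
      (L.length : 𝕜) • GG e f x P - FF e f (v - w) L := by rw [a1]; abel
    have a4 := (congrArg norm a3).trans_le ((norm_sub_le _ _).trans (add_le_add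
      ((norm_sub_le _ _).trans (add_le_add (norm_sub_le _ _) le_rfl)) a2))
    rw [norm_smul, RCLike.norm_natCast] at a4
    rw [List.length_append]
    push_cast
    rw [hR] at w2
    nlinarith [mul_le_mul_of_nonneg_left v5 (by linarith : (0 : ℝ) ≤ L.length),
      mul_le_mul_of_nonneg_left l1 (norm_nonneg (FF e f x P)),
      mul_le_mul_of_nonneg_left l1 (by positivity : (0 : ℝ) ≤ j * P.length)]

theorem Bas.bad [CompleteSpace X] (h : Bas e f c) (H : ¬ ∃ K, 1 ≤ K ∧ Ces e f K) :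
    ∃ (x : X) (k : ℕ → ℕ), Function.Injective k ∧ (∀ n, f n x ≠ 0 → n ∈ Set.range k) ∧
      (∀ i j, i < j → ‖f (k j) x‖ ≤ ‖f (k i) x‖) ∧
      ∀ D : ℕ, ∃ m : ℕ, D * m < ‖FF e f x ((List.range m).map k)‖ := by
  choose Y L M h1 h2 h3 h4 h5 using fun (p : {p : X × List ℕ // Fi f p.1 p.2}) j => h.hump H p.2 j
  obtain ⟨s, hs⟩ : ∃ s : ℕ → {p : X × List ℕ // Fi f p.1 p.2}, ∀ j, s (j + 1) =
      ⟨(Y (s j) j, (s j).1.2 ++ (L (s j) j ++ M (s j) j)), h1 _ _⟩ :=
    ⟨fun j => Nat.rec ⟨(0, []), by simp [Fi]⟩ (fun j p => ⟨(Y p j, p.1.2 ++ (L p j ++ M p j)),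
      h1 _ _⟩) j, fun j => rfl⟩
  have hP : ∀ j, (s (j + 1)).1.2 = (s j).1.2 ++ L (s j) j ++ M (s j) j := fun j => by
    rw [hs, List.append_assoc]
  have mono : ∀ j i, j ≤ i → ∃ R, (s i).1.2 = (s j).1.2 ++ R ∧
      ∀ a ∈ (s j).1.2, f a (s i).1.1 = f a (s j).1.1 := fun j i hi => by
    induction i, hi using Nat.le_induction with
    | base => exact ⟨[], by simp, fun _ _ => rfl⟩
    | succ i hi ih =>
      obtain ⟨R, r1, r2⟩ := ih
      refine ⟨R ++ (L (s i) i ++ M (s i) i), by rw [hP, ← List.append_assoc, ← List.append_assoc, ← r1],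
        fun a ha => ?_⟩
      rw [hs, ← r2 a ha]
      exact h4 _ _ a (by simp [r1, ha])
  have len : ∀ j, j ≤ (s j).1.2.length := fun j => by
    induction j with
    | zero => simp
    | succ j ih =>
      have := List.length_pos_iff.2 (h2 (s j) j)
      rw [hs]; simp only [List.length_append]; omega
  obtain ⟨z, hz⟩ := cauchySeq_tendsto_of_complete (cauchySeq_of_le_geometric (f := fun j =>
    (s j).1.1) (1 / 2) 1 (by norm_num) fun j => by rw [hs, dist_eq_norm]; exact h3 _ _)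
  have lim : ∀ a j, (∀ i, j ≤ i → f a (s i).1.1 = f a (s j).1.1) → f a z = f a (s j).1.1 :=
    fun a j hj => tendsto_nhds_unique (((f a).continuous.tendsto z).comp hz)
      (tendsto_const_nhds.congr' (by
        filter_upwards [eventually_ge_atTop j] with i hi using (hj i hi).symm))
  have z1 : ∀ j, ∀ a ∈ (s j).1.2, f a z = f a (s j).1.1 := fun j a ha =>
    lim a j fun i hi => (mono j i hi).choose_spec.2 a ha
  obtain ⟨k, hk⟩ : ∃ k : ℕ → ℕ, ∀ j n (hn : n < (s j).1.2.length), (s j).1.2[n] = k n := by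
    refine ⟨fun n => (s (n + 1)).1.2[n]'(len (n + 1)), fun j n hn => ?_⟩
    rcases le_total j (n + 1) with h6 | h6
    · obtain ⟨R, r1, -⟩ := mono _ _ h6
      simp only [r1, List.getElem_append_left hn]
    · obtain ⟨R, r1, -⟩ := mono _ _ h6
      simp only [r1, List.getElem_append_left (len (n + 1))]
  refine ⟨z, k, fun i j hij => ?_, fun n hn => ?_, fun i j hij => ?_, fun D => ⟨((s D).1.2 ++
    L (s D) D).length, ?_⟩⟩
  · have := len (i + j + 1)
    rw [← hk (i + j + 1) i (by omega), ← hk (i + j + 1) j (by omega)] at hij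
    exact (s _).2.1.getElem_inj_iff.1 hij
  · by_contra h6
    have : ∀ j, f n (s j).1.1 = 0 := fun j => by
      by_contra h7
      obtain ⟨i, hi, rfl⟩ := List.getElem_of_mem (((s j).2.2.2 n).1 h7)
      exact h6 ⟨i, (hk j i hi).symm⟩
    exact hn (by rw [lim n 0 fun i _ => by rw [this, this], this])
  · have := len (j + 1)
    rw [← hk (j + 1) i (by omega), ← hk (j + 1) j (by omega), z1 _ _ (List.getElem_mem _),
      z1 _ _ (List.getElem_mem _)]
    exact List.pairwise_iff_getElem.1 (s _).2.2.1 i j _ _ hij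
  · have e1 : (List.range ((s D).1.2 ++ L (s D) D).length).map k = (s D).1.2 ++ L (s D) D :=
      List.ext_getElem (by simp) fun n _ hn => by
        rw [List.getElem_map, List.getElem_range, ← hk (D + 1) n (by
          rw [hP, List.length_append]; omega)]
        simp only [hP, List.getElem_append_left hn]
    rw [e1, FF_congr (v := Y (s D) D) fun a ha => by
      rw [z1 (D + 1) a (by rw [hP]; exact List.mem_append_left _ ha), hs]]
    exact h5 _ _

theorem GG_range (x : X) (k : ℕ → ℕ) (m : ℕ) :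
    GG e f x ((List.range m).map k) = ∑ j ∈ range m, f (k j) x • e (k j) := by
  induction m with
  | zero => simp [GG]
  | succ m ih => simp only [GG, List.range_succ, List.map_append, List.sum_append,
      sum_range_succ] at ih ⊢; simp [← ih]

theorem FF_range (x : X) (k : ℕ → ℕ) (m : ℕ) : FF e f x ((List.range m).map k) =
    ∑ n ∈ range m, ∑ j ∈ range (n + 1), f (k j) x • e (k j) := by
  induction m with
  | zero => simp [FF]
  | succ m ih =>
    rw [List.range_succ, List.map_append, FF_append, ih, GG_range, sum_range_succ _ m,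
      sum_range_succ _ m]
    simp [FF, add_assoc]

theorem vp_bound {F G : ℕ → X} {B D : ℝ} (B0 : 0 ≤ B) (D0 : 0 ≤ D) (F0 : F 0 = 0)
    (h1 : ∀ m, F (m + 1) = F m + G m) (h2 : ∀ m, ‖G m‖ ≤ (m + 1) * B)
    (h3 : ∀ p, ‖F (2 * p) - F p‖ ≤ p * D) (m : ℕ) : ‖F m‖ ≤ (D + 2 * B) * m := by
  induction m using Nat.strong_induction_on with
  | _ m ih =>
    obtain ⟨p, rfl | rfl⟩ := Nat.even_or_odd' m
    · rcases Nat.eq_zero_or_pos p with rfl | hp
      · simp [F0]
      · have := ih p (by omega)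
        push_cast
        nlinarith [norm_sub_norm_le (F (2 * p)) (F p), h3 p, mul_nonneg B0 p.cast_nonneg]
    · have := ih p (by omega)
      have h4 := h2 (2 * p)
      rw [h1]
      push_cast at h4 ⊢
      nlinarith [norm_sub_norm_le (F (2 * p)) (F p), h3 p, mul_nonneg B0 p.cast_nonneg,
        norm_add_le (F (2 * p)) (G (2 * p))]

end Pool.Agent.H.MP_d7aa4b_an
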